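import Pool.Agent.BE01.Stmts

/-!
# Squad BE01, module FIX

Picard iteration for jets.
-/

set_option autoImplicit false
set_option linter.unusedSectionVars false

namespace Pool.Agent.BE01.H43

open Set Filter Topology

noncomputable section

variable {H : Type} [NormedAddCommGroup H] [InnerProductSpace ℝ H]

/-- The iterates. -/
def itr (Θ : (Fin 3 → ℝ → H) → Fin 3 → ℝ → H) : ℕ → Fin 3 → ℝ → H
  | 0 => 0
  | k + 1 => Θ (itr Θ k)

lemma jet_zero (t0 : ℝ) : Jet t0 (0 : Fin 3 → ℝ → H) := by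
  refine ⟨fun t _ => ?_, fun t _ => ?_, ?_⟩
  · exact hasDerivAt_const t (0 : H)
  · exact hasDerivAt_const t (0 : H)
  · exact continuousOn_const

lemma bd_zero {t0 m N : ℝ} (ht0 : 0 < t0) (hN : 0 ≤ N) : Bd t0 m N (0 : Fin 3 → ℝ → H) := by
  intro t ht
  simp only [Pi.zero_apply, norm_zero, add_zero]
  exact mul_nonneg hN (Real.rpow_nonneg (ht0.trans ht).le _)

lemma bd_comp {t0 m N : ℝ} {f : Fin 3 → ℝ → H} (h : Bd t0 m N f) (i : Fin 3) {t : ℝ}
    (ht : t0 < t) : ‖f i t‖ ≤ N * t ^ (-m) := by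
  have h1 := h t ht
  have h0 := norm_nonneg (f 0 t)
  have h1' := norm_nonneg (f 1 t)
  have h2 := norm_nonneg (f 2 t)
  fin_cases i
  · show ‖f 0 t‖ ≤ _
    linarith
  · show ‖f 1 t‖ ≤ _
    linarith
  · show ‖f 2 t‖ ≤ _
    linarith

lemma bd_of_comp {t0 m N : ℝ} {f : Fin 3 → ℝ → H}
    (h : ∀ i, ∀ t, t0 < t → ‖f i t‖ ≤ N * t ^ (-m)) : Bd t0 m (3 * N) f := by
  intro t ht
  have h0 := h 0 t ht
  have h1 := h 1 t ht
  have h2 := h 2 t ht
  linarith

lemma bd_sub {t0 m N N' : ℝ} {f g : Fin 3 → ℝ → H} (hf : Bd t0 m N f) (hg : Bd t0 m N' g) :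
    Bd t0 m (N + N') (f - g) := by
  intro t ht
  have h1 := hf t ht
  have h2 := hg t ht
  have a0 := norm_sub_le (f 0 t) (g 0 t)
  have a1 := norm_sub_le (f 1 t) (g 1 t)
  have a2 := norm_sub_le (f 2 t) (g 2 t)
  simp only [Pi.sub_apply]
  rw [add_mul]
  linarith

/-- **FIX** -/
theorem fix : FixStmt := by
  intro H _ _ _ t0 m N0 q Θ ht0 hm hN0 hq0 hq1 hΘ hc
  set F : ℕ → Fin 3 → ℝ → H := itr Θ with hF
  have hF0 : F 0 = 0 := rfl
  have hFs : ∀ k, F (k + 1) = Θ (F k) := fun k => rfl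
  have hJB : ∀ k, Jet t0 (F k) ∧ Bd t0 m N0 (F k) := by
    intro k
    induction k with
    | zero => exact ⟨jet_zero t0, bd_zero ht0 hN0⟩
    | succ k ih => exact hΘ _ ih.1 ih.2
  have hd : ∀ k, Bd t0 m (2 * N0 * q ^ k) (F (k + 1) - F k) := by
    intro k
    induction k with
    | zero =>
      have h := bd_sub (hJB 1).2 (hJB 0).2
      have e : 2 * N0 * q ^ 0 = N0 + N0 := by ring
      rw [e]
      exact h
    | succ k ih =>
      have h := hc (F (k + 1)) (F k) (2 * N0 * q ^ k) (by positivity) (hJB (k + 1)).1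
        (hJB (k + 1)).2 (hJB k).1 (hJB k).2 ih
      have e : 2 * N0 * q ^ (k + 1) = q * (2 * N0 * q ^ k) := by ring
      rw [e]
      exact h
  have hdist : ∀ i t, t0 < t → ∀ k, dist (F k i t) (F (k + 1) i t) ≤
      (2 * N0 * t ^ (-m)) * q ^ k := by
    intro i t ht k
    rw [dist_comm, dist_eq_norm]
    have h := bd_comp (hd k) i ht
    simp only [Pi.sub_apply] at h
    calc _ ≤ 2 * N0 * q ^ k * t ^ (-m) := h
      _ = _ := by ring
  have hcau : ∀ i t, t0 < t → CauchySeq (fun k => F k i t) := fun i t ht =>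
    cauchySeq_of_le_geometric q _ hq1 (hdist i t ht)
  let g : Fin 3 → ℝ → H := fun i t => limUnder atTop (fun k => F k i t)
  have hg : ∀ i t, t0 < t → Tendsto (fun k => F k i t) atTop (𝓝 (g i t)) := fun i t ht =>
    (hcau i t ht).tendsto_limUnder
  have hgd : ∀ i t, t0 < t → ∀ k, dist (F k i t) (g i t) ≤
      (2 * N0 * t ^ (-m)) * q ^ k / (1 - q) := fun i t ht k =>
    dist_le_of_le_geometric_of_tendsto q _ hq1 (hdist i t ht) (hg i t ht) k
  have hq1' : 0 < 1 - q := by linarith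
  have hlim : Tendsto (fun k : ℕ => (2 * N0 * t0 ^ (-m)) * q ^ k / (1 - q)) atTop (𝓝 0) := by
    have h := (tendsto_pow_atTop_nhds_zero_of_lt_one hq0 hq1).const_mul (2 * N0 * t0 ^ (-m))
    have h' := h.div_const (1 - q)
    rwa [mul_zero, zero_div] at h'
  have hrp : ∀ t, t0 < t → t ^ (-m) ≤ t0 ^ (-m) := fun t ht =>
    Real.rpow_le_rpow_of_nonpos ht0 ht.le (by linarith)
  have huni : ∀ i, TendstoUniformlyOn (fun k t => F k i t) (g i) atTop (Ioi t0) := by
    intro i
    rw [Metric.tendstoUniformlyOn_iff]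
    intro ε hε
    filter_upwards [hlim.eventually (gt_mem_nhds hε)] with k hk t ht
    rw [dist_comm]
    refine lt_of_le_of_lt (hgd i t ht k) (lt_of_le_of_lt ?_ hk)
    have h1 := hrp t ht
    gcongr
  have hgJ : Jet t0 g := by
    refine ⟨fun t ht => ?_, fun t ht => ?_, ?_⟩
    · exact hasDerivAt_of_tendstoUniformlyOn isOpen_Ioi (huni 1)
        (Eventually.of_forall fun k t ht => (hJB k).1.1 t ht) (fun t ht => hg 0 t ht) ht
    · exact hasDerivAt_of_tendstoUniformlyOn isOpen_Ioi (huni 2)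
        (Eventually.of_forall fun k t ht => (hJB k).1.2.1 t ht) (fun t ht => hg 1 t ht) ht
    · exact (huni 2).continuousOn (Eventually.of_forall fun k => (hJB k).1.2.2).frequently
  have hgB : Bd t0 m N0 g := by
    intro t ht
    have h := (((hg 0 t ht).norm).add ((hg 1 t ht).norm)).add ((hg 2 t ht).norm)
    exact le_of_tendsto h (Eventually.of_forall fun k => (hJB k).2 t ht)
  refine ⟨g, hgJ, hgB, ?_⟩
  intro i t ht
  have hgk : ∀ k, Bd t0 m (3 * (2 * N0 * q ^ k / (1 - q))) (g - F k) := by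
    intro k
    apply bd_of_comp
    intro i t ht
    have h := hgd i t ht k
    rw [dist_comm, dist_eq_norm] at h
    simp only [Pi.sub_apply]
    calc _ ≤ _ := h
      _ = _ := by ring
  have hgk' : ∀ k, Bd t0 m (q * (3 * (2 * N0 * q ^ k / (1 - q)))) (Θ g - F (k + 1)) := by
    intro k
    exact hc g (F k) _ (by positivity) hgJ hgB (hJB k).1 (hJB k).2 (hgk k)
  have h1 : Tendsto (fun k => F (k + 1) i t) atTop (𝓝 (Θ g i t)) := by
    rw [tendsto_iff_norm_sub_tendsto_zero]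
    have h2 : Tendsto (fun k : ℕ => q * (3 * (2 * N0 * q ^ k / (1 - q))) * t ^ (-m)) atTop
        (𝓝 0) := by
      have h := (((((tendsto_pow_atTop_nhds_zero_of_lt_one hq0 hq1).const_mul
        (2 * N0)).div_const (1 - q)).const_mul 3).const_mul q).mul_const (t ^ (-m))
      simpa using h
    refine squeeze_zero (fun k => norm_nonneg _) (fun k => ?_) h2
    have h := bd_comp (hgk' k) i ht
    simp only [Pi.sub_apply] at h
    rw [norm_sub_rev]
    exact h
  have h3 : Tendsto (fun k => F (k + 1) i t) atTop (𝓝 (g i t)) :=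
    (tendsto_add_atTop_iff_nat 1).2 (hg i t ht)
  exact tendsto_nhds_unique h1 h3

end

end Pool.Agent.BE01.H43
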