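import Pool.Agent.BE01.Stmts

/-!
# Squad BE01, module LIC

Formulas for the solution of the linear wave equation with a source.
-/

set_option autoImplicit false
set_option linter.unusedSectionVars false

namespace Pool.Agent.BE01.H43

open Set Filter Topology MeasureTheory

noncomputable section

variable {H : Type} [NormedAddCommGroup H] [InnerProductSpace ℝ H]

/-- Product rule for a strongly differentiable family of operators. -/
lemma hasDerivAt_op {U : ℝ → H →L[ℝ] H} {K τ : ℝ} {g : ℝ → H} {g' v : H}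
    (hK : ∀ s h, ‖U s h‖ ≤ K * ‖h‖) (hc : ContinuousAt (fun s => U s g') τ)
    (hU : HasDerivAt (fun s => U s (g τ)) v τ) (hg : HasDerivAt g g' τ) :
    HasDerivAt (fun s => U s (g s)) (v + U τ g') τ := by
  rw [hasDerivAt_iff_tendsto_slope] at hU hg ⊢
  have h1 : Tendsto (fun s => U s (slope g τ s - g')) (𝓝[≠] τ) (𝓝 0) := by
    have h2 : Tendsto (fun s => K * ‖slope g τ s - g'‖) (𝓝[≠] τ) (𝓝 0) := by
      have h3 := (tendsto_iff_norm_sub_tendsto_zero.1 hg).const_mul K
      rwa [mul_zero] at h3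
    exact squeeze_zero_norm (fun s => hK s _) h2
  have h4 : Tendsto (fun s => U s g') (𝓝[≠] τ) (𝓝 (U τ g')) :=
    tendsto_nhdsWithin_of_tendsto_nhds hc
  have h5 := hU.add (h1.add h4)
  rw [zero_add] at h5
  refine h5.congr' (Eventually.of_forall fun s => ?_)
  simp only [slope_def_module, map_sub, map_smul]
  rw [sub_add_cancel, ← smul_add]
  congr 1
  abel

lemma tendsto_decay {G : ℝ → H} {t m N : ℝ} (hm : 1 < m)
    (hG : ∀ τ, 0 ≤ τ → ‖G τ‖ ≤ N * (t + τ) ^ (-m)) : Tendsto G atTop (𝓝 0) := by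
  have h1 : Tendsto (fun τ : ℝ => N * (t + τ) ^ (-m)) atTop (𝓝 0) := by
    have h2 := ((tendsto_rpow_neg_atTop (show 0 < m by linarith)).comp
      (tendsto_atTop_add_const_left atTop t tendsto_id)).const_mul N
    rw [mul_zero] at h2
    exact h2
  exact squeeze_zero_norm' (eventually_ge_atTop (0 : ℝ) |>.mono fun τ hτ => hG τ hτ) h1

/-- **LIC** -/
theorem lic (hLia : LiaStmt) (hLib : LibStmt) : LicStmt := by
  intro X Y H _ _ _ _ _ _ _ A W f f' t0 m N ht0 hm hf'c hfd hfN hf'N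
  have hfc : ContinuousOn f (Ioi t0) := fun t ht => (hfd t ht).continuousAt.continuousWithinAt
  -- integrability
  obtain ⟨iS, -, -⟩ := hLia H W.Sn f t0 m N ht0 hm W.prp.Sn_le W.prp.Sn_cont hfc hfN
  obtain ⟨iC, -, -⟩ := hLia H W.C f t0 m N ht0 hm W.prp.C_le W.prp.C_cont hfc hfN
  obtain ⟨iS', -, -⟩ := hLia H W.Sn f' t0 m N ht0 hm W.prp.Sn_le W.prp.Sn_cont hf'c hf'N
  obtain ⟨iC', -, -⟩ := hLia H W.C f' t0 m N ht0 hm W.prp.C_le W.prp.C_cont hf'c hf'N
  -- (3)
  have h3 : ∀ t > t0, wu W f t = - W.R (ws W f t) := by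
    intro t ht
    unfold wu ws
    rw [← ContinuousLinearMap.integral_comp_comm W.R (iS t ht)]
  have hsh : ∀ t > t0, ∀ τ ∈ Ici (0 : ℝ), HasDerivAt (fun s => f (t + s)) (f' (t + τ)) τ := by
    intro t ht τ hτ
    have hτ' : (0 : ℝ) ≤ τ := hτ
    have h := (hfd (t + τ) (by linarith)).scomp τ ((hasDerivAt_id τ).const_add t)
    rw [one_smul] at h
    exact h
  -- (4)
  have h4 : ∀ t > t0, wv W f t = - W.R (ws W f' t) := by
    intro t ht
    have hder : ∀ τ ∈ Ici (0 : ℝ), HasDerivAt (fun s => W.R (W.Sn s (f (t + s))))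
        (W.C τ (f (t + τ)) + W.R (W.Sn τ (f' (t + τ)))) τ := by
      intro τ hτ
      have h := hasDerivAt_op (U := fun s => W.R.comp (W.Sn s)) (K := ‖W.R‖) (τ := τ)
        (g := fun s => f (t + s)) (g' := f' (t + τ)) (v := W.C τ (f (t + τ)))
        (fun s h => (W.R.le_opNorm _).trans
          (mul_le_mul_of_nonneg_left (W.prp.Sn_le s h) (norm_nonneg _)))
        ((W.R.continuous.comp (W.prp.Sn_cont (f' (t + τ)))).continuousAt)
        (W.prp.dS _ τ) (hsh t ht τ hτ)
      exact h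
    have hint : IntegrableOn (fun τ => W.C τ (f (t + τ)) + W.R (W.Sn τ (f' (t + τ))))
        (Ioi 0) := (iC t ht).add (W.R.integrable_comp (iS' t ht))
    have hlim : Tendsto (fun s => W.R (W.Sn s (f (t + s)))) atTop (𝓝 0) := by
      refine tendsto_decay (t := t) (N := ‖W.R‖ * N) hm fun τ hτ => ?_
      calc _ ≤ ‖W.R‖ * ‖W.Sn τ (f (t + τ))‖ := W.R.le_opNorm _
        _ ≤ ‖W.R‖ * (N * (t + τ) ^ (-m)) := mul_le_mul_of_nonneg_left
          ((W.prp.Sn_le _ _).trans (hfN _ (by linarith))) (norm_nonneg _)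
        _ = _ := by ring
    have h := integral_Ioi_of_hasDerivAt_of_tendsto' hder hint hlim
    rw [integral_add (iC t ht) (W.R.integrable_comp (iS' t ht)),
      ContinuousLinearMap.integral_comp_comm W.R (iS' t ht), W.prp.Sn_zero, map_zero,
      sub_zero] at h
    exact eq_neg_of_add_eq_zero_left h
  -- (2)
  have h2 : ∀ t > t0, ws W f t = W.R (wv W f' t + f t) := by
    intro t ht
    have hder : ∀ τ ∈ Ici (0 : ℝ), HasDerivAt (fun s => W.R (W.C s (f (t + s))))
        (-(W.Sn τ (f (t + τ))) + W.R (W.C τ (f' (t + τ)))) τ := by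
      intro τ hτ
      have h := hasDerivAt_op (U := fun s => W.R.comp (W.C s)) (K := ‖W.R‖) (τ := τ)
        (g := fun s => f (t + s)) (g' := f' (t + τ)) (v := -(W.Sn τ (f (t + τ))))
        (fun s h => (W.R.le_opNorm _).trans
          (mul_le_mul_of_nonneg_left (W.prp.C_le s h) (norm_nonneg _)))
        ((W.R.continuous.comp (W.prp.C_cont (f' (t + τ)))).continuousAt)
        (W.prp.dC _ τ) (hsh t ht τ hτ)
      exact h
    have iSn : IntegrableOn (fun τ => -(W.Sn τ (f (t + τ)))) (Ioi 0) := (iS t ht).neg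
    have hint : IntegrableOn (fun τ => -(W.Sn τ (f (t + τ))) + W.R (W.C τ (f' (t + τ))))
        (Ioi 0) := iSn.add (W.R.integrable_comp (iC' t ht))
    have hlim : Tendsto (fun s => W.R (W.C s (f (t + s)))) atTop (𝓝 0) := by
      refine tendsto_decay (t := t) (N := ‖W.R‖ * N) hm fun τ hτ => ?_
      calc _ ≤ ‖W.R‖ * ‖W.C τ (f (t + τ))‖ := W.R.le_opNorm _
        _ ≤ ‖W.R‖ * (N * (t + τ) ^ (-m)) := mul_le_mul_of_nonneg_left
          ((W.prp.C_le _ _).trans (hfN _ (by linarith))) (norm_nonneg _)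
        _ = _ := by ring
    have h := integral_Ioi_of_hasDerivAt_of_tendsto' hder hint hlim
    rw [integral_add iSn (W.R.integrable_comp (iC' t ht)),
      ContinuousLinearMap.integral_comp_comm W.R (iC' t ht), W.prp.C_zero, integral_neg,
      add_zero, zero_sub] at h
    rw [map_add]
    have h' : - ws W f t + W.R (wv W f' t) = - W.R (f t) := h
    have h'' : ws W f t = W.R (wv W f' t) + W.R (f t) := by
      rw [← neg_inj, neg_add, ← h']
      abel
    exact h''
  intro t ht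
  refine ⟨?_, ?_, h3 t ht, h4 t ht⟩
  · have h5 := hLib H W.Sn f f' t0 m N ht0 hm W.prp.Sn_le W.prp.Sn_cont hf'c hfd hfN hf'N t ht
    have h6 : HasDerivAt (fun t => - W.R (ws W f t)) (- W.R (ws W f' t)) t :=
      (W.R.hasFDerivAt.comp_hasDerivAt t h5).neg
    rw [h4 t ht]
    refine h6.congr_of_eventuallyEq ?_
    filter_upwards [Ioi_mem_nhds ht] with s hs
    exact h3 s hs
  · rw [h3 t ht, h2 t ht, W.prp.RR]

end

end Pool.Agent.BE01.H43
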