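import Pool.Agent.BE01.StmtsS
import Pool.Agent.BE01.StmtsC

/-!
# Squad BE01, module INF

A compact symmetric positive operator on an infinite dimensional Hilbert space has arbitrarily
small eigenvalues.
-/

set_option autoImplicit false

namespace Pool.Agent.BE01.H43

open Set Filter Topology MeasureTheory
open scoped InnerProductSpace

/-- **INF** -/
theorem inf (hEib : EibStmt) : InfStmt := by
  intro H _ _ _ S hS hsym hpos hfin Λ
  obtain ⟨κ, b, s, hs, hb⟩ := hEib H S hS hsym hpos
  -- the index set is infinite
  have hκ : Infinite κ := by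
    by_contra hcon
    rw [not_infinite_iff_finite] at hcon
    apply hfin
    have h1 : (Submodule.span ℝ (Set.range b)) = ⊤ := by
      have hfd : FiniteDimensional ℝ (Submodule.span ℝ (Set.range b)) :=
        FiniteDimensional.span_of_finite ℝ (Set.finite_range b)
      have h2 := b.dense_span
      rwa [IsClosed.submodule_topologicalClosure_eq
        (Submodule.closed_of_finiteDimensional _)] at h2
    rw [FiniteDimensional, Module.finite_def, ← h1]
    exact Submodule.fg_span (Set.finite_range b)
  set L : ℝ := max Λ 1 with hL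
  have hL1 : 1 ≤ L := le_max_right _ _
  have hLp : 0 < L := by linarith
  obtain ⟨k, hk⟩ : ∃ k, s k ≤ 1 / L ^ 2 := by
    by_contra hcon
    push Not at hcon
    set ε : ℝ := 1 / L ^ 2 with hε
    have hεp : 0 < ε := by positivity
    obtain ⟨e⟩ : Nonempty (ℕ ↪ κ) := ⟨Infinite.natEmbedding κ⟩
    have hK := IsCompactOperator.isCompact_closure_image_closedBall (𝕜₁ := ℝ) (f := S.toLinearMap)
      hS (1 : ℝ)
    have hmem : ∀ n : ℕ, S (b (e n)) ∈ closure (S.toLinearMap '' Metric.closedBall (0 : H) 1) := by
      intro n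
      apply subset_closure
      refine ⟨b (e n), ?_, rfl⟩
      rw [mem_closedBall_zero_iff, b.orthonormal.1]
    obtain ⟨a, -, φ, hφ, hlim⟩ := hK.tendsto_subseq hmem
    have hc := hlim.cauchySeq
    rw [Metric.cauchySeq_iff'] at hc
    obtain ⟨N, hN⟩ := hc ε hεp
    have h1 := hN (N + 1) (Nat.le_succ N)
    simp only [Function.comp_apply] at h1
    set i := e (φ (N + 1)) with hi
    set j := e (φ N) with hj
    have hij : i ≠ j := by
      intro h
      have := hφ.injective (e.injective h)
      omega
    rw [hb, hb, dist_eq_norm] at h1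
    have h2 : ‖s i • b i - s j • b j‖ ^ 2 = s i ^ 2 + s j ^ 2 := by
      rw [norm_sub_sq_real, norm_smul, norm_smul, b.orthonormal.1, b.orthonormal.1,
        real_inner_smul_left, real_inner_smul_right, b.orthonormal.2 hij, Real.norm_eq_abs,
        Real.norm_eq_abs, mul_one, mul_one, sq_abs, sq_abs]
      ring
    have h3 : ‖s i • b i - s j • b j‖ ^ 2 < ε ^ 2 := by
      gcongr
    rw [h2] at h3
    have h4 : ε ^ 2 < s i ^ 2 := by
      have := hcon i
      gcongr
    nlinarith [sq_nonneg (s j)]
  have hsk := hs k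
  have hsq : Real.sqrt (s k) ≤ 1 / L := by
    rw [Real.sqrt_le_left (by positivity)]
    calc s k ≤ 1 / L ^ 2 := hk
      _ = (1 / L) ^ 2 := by ring
  have hsqp : 0 < Real.sqrt (s k) := Real.sqrt_pos.2 hsk
  refine ⟨1 / Real.sqrt (s k), ?_, by positivity, b k, ?_, ?_⟩
  · have : L ≤ 1 / Real.sqrt (s k) := by
      rw [le_div_iff₀ hsqp]
      calc L * Real.sqrt (s k) ≤ L * (1 / L) := by gcongr
        _ = 1 := by field_simp
    exact (le_max_left Λ 1).trans this
  · intro h
    have := b.orthonormal.1 k
    rw [h, norm_zero] at this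
    exact zero_ne_one this
  · rw [hb, smul_smul, div_pow, one_pow, Real.sq_sqrt hsk.le, one_div, inv_mul_cancel₀ hsk.ne',
      one_smul]

end Pool.Agent.BE01.H43
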