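import Pool.Agent.BE01.StmtsS

/-!
# Squad BE01, module ODE

Eigenfunctions of large frequency of the one-dimensional equation.
-/

set_option autoImplicit false

namespace Pool.Agent.BE01.H43

open Set Filter Topology MeasureTheory

/-- **ODE** -/
theorem ode (hPru : PruStmt) (hUni : UniStmt) (hAsy : AsyStmt) (hAmp : AmpStmt) : OdeStmt := by
  intro c r0 r1 hr0 hr01
  obtain ⟨C1, hC1, ω0, hω0, hA⟩ := hAmp c r0 r1 hr0 hr01
  obtain ⟨C2, hC2, hB⟩ := hAsy c r0 r1 hr0 hr01
  refine ⟨C1 + C2, by positivity, ω0, hω0, ?_⟩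
  intro ω w w' hω hw hw1 hne
  have hω1 : 1 ≤ ω := hω0.trans hω
  have hωp : 0 < ω := by linarith
  obtain ⟨θ, ρ, hP, hv⟩ := hPru c ω r0 r1 hr0 hr01 hωp
  have hU := hUni c (ω ^ 2) r0 r1 w w' _ _ hr0 hr01 hw hv
  have hU' : ∀ r ∈ Icc r0 r1, ω * w r = w' r0 * (ρ r * Real.sin (θ r)) := by
    intro r hr
    have h := hU r hr
    simp only [hP.ρ0, hP.θ0, Real.cos_zero, mul_one] at h
    exact h
  have hk : w' r0 ≠ 0 := by
    intro h0
    obtain ⟨r, hr, hwr⟩ := hne
    have h := hU' r hr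
    rw [h0, zero_mul] at h
    rcases mul_eq_zero.1 h with h | h
    · exact hωp.ne' h
    · exact hwr h
  have hr1 : r1 ∈ Icc r0 r1 := ⟨hr01.le, le_rfl⟩
  have hsin : Real.sin (θ r1) = 0 := by
    have h := hU' r1 hr1
    rw [hw1, mul_zero] at h
    rcases mul_eq_zero.1 h.symm with h | h
    · exact absurd h hk
    · rcases mul_eq_zero.1 h with h | h
      · exact absurd h (hP.pos r1 hr1).ne'
      · exact h
  obtain ⟨m, hm⟩ := Real.sin_eq_zero_iff.1 hsin
  constructor
  · refine ⟨m, ?_⟩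
    have h := hB ω θ ρ hω1 hP
    rw [← hm, abs_sub_comm] at h
    refine h.trans ?_
    gcongr
    linarith
  · have hwk : ∀ r ∈ Icc r0 r1, w r = w' r0 / ω * (ρ r * Real.sin (θ r)) := by
      intro r hr
      have h := hU' r hr
      field_simp
      linarith
    have hint : ∫ s in r0..r1, w s ^ 2 =
        (w' r0 / ω) ^ 2 * ∫ s in r0..r1, (ρ s * Real.sin (θ s)) ^ 2 := by
      rw [← intervalIntegral.integral_const_mul]
      refine intervalIntegral.integral_congr fun s hs => ?_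
      rw [uIcc_of_le hr01.le] at hs
      rw [hwk s hs]
      ring
    have hnn : 0 ≤ ∫ s in r0..r1, w s ^ 2 :=
      intervalIntegral.integral_nonneg hr01.le fun s _ => sq_nonneg _
    intro r hr
    have h := hA ω θ ρ hω hP r hr
    calc w r ^ 2 = (w' r0 / ω) ^ 2 * (ρ r * Real.sin (θ r)) ^ 2 := by
          rw [hwk r hr]
          ring
      _ ≤ (w' r0 / ω) ^ 2 * (C1 * ∫ s in r0..r1, (ρ s * Real.sin (θ s)) ^ 2) := by
          gcongr
      _ = C1 * ∫ s in r0..r1, w s ^ 2 := by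
          rw [hint]
          ring
      _ ≤ (C1 + C2) * ∫ s in r0..r1, w s ^ 2 := by
          gcongr
          linarith

end Pool.Agent.BE01.H43
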